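import Mathlib
import Pool.Agent.H6.Dpp

set_option autoImplicit false

namespace Pool.Agent.Results.MP_f6aace_co.Example

open Pool.Agent.H6.Dpp

def G : SimpleGraph (Fin 13) := SimpleGraph.fromRel fun u v =>
  Nat.testBit 45677501693297339135967311424449496588138283646 (13 * u.1 + v.1) = true

instance : DecidableRel G.Adj := fun u v => by
  unfold G
  rw [SimpleGraph.fromRel_adj]
  infer_instance

def sh (u v : Fin 13) : Fin 2 :=
  if Nat.testBit 45677501693255798225101469821765116186367459340 (13 * u.1 + v.1) then 1 else 0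

def M : ℕ :=
  103183031809922501049412264624041688335147116245453464811909956239853701575705392847386274739919897728453853064657792210980711723774056600618092524677023277391796638460383891893851423186994094613385713062

def adj (x y : Fin 13 × Fin 2) : Bool :=
  Nat.testBit M (26 * (2 * x.1.1 + x.2.1) + (2 * y.1.1 + y.2.1))

def L : List (Fin 13 × Fin 2) :=
  [(0, 0), (0, 1), (1, 0), (1, 1), (2, 0), (2, 1), (3, 0), (3, 1), (4, 0), (4, 1), (5, 0), (5,
   1), (6, 0), (6, 1), (7, 0), (7, 1), (8, 0), (8, 1), (9, 0), (9, 1), (10, 0), (10, 1), (11,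
   0), (11, 1), (12, 0), (12, 1)]

lemma h1 : noInd adj 6 L = true := by decide +kernel

lemma h2 : ∀ x y : Fin 13 × Fin 2, adj x y = true →
    (x.1 = y.1 ∧ x.2 ≠ y.2) ∨ (G.Adj x.1 y.1 ∧ x.2 + sh x.1 y.1 = y.2 + sh y.1 x.1) := by
  decide +kernel

lemma h3 : ∀ x : Fin 13 × Fin 2, x ∈ L := by decide +kernel

lemma alpha : alphaDP G 2 ≤ 5 := by
  refine alphaDP_le (tw_cover G 2 sh) fun s hs => Nat.le_of_lt_succ ?_
  refine noInd_spec adj 6 L h1 s (fun x _ => h3 x) fun x hx y hy ne => ?_
  by_contra h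
  exact hs hx hy ne (h2 x y (by simpa using h))

lemma chi : chiDP G = 5 := by
  refine chiDP_eq (fun v => v.1) Fin.val_injective (by norm_num) (fun v => ?_)
    (Fin.castLE (by norm_num)) (by decide +kernel)
  rw [Set.ncard_eq_toFinset_card', Set.toFinset_ofPred]
  revert v
  decide +kernel

theorem result : ∃ (n : ℕ) (G : SimpleGraph (Fin n)), 0 < n ∧ 3 < chiDP G ∧
    (alphaDP G 2 : ℝ) < 2 * n / chiDP G := by
  refine ⟨13, G, by norm_num, by rw [chi]; norm_num, ?_⟩
  have : (alphaDP G 2 : ℝ) ≤ 5 := by exact_mod_cast alpha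
  rw [chi]
  norm_num
  linarith

end Pool.Agent.Results.MP_f6aace_co.Example
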